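import Pool.Agent.Work.MP_ffcd14_ag.Dg.Fin

/-!
# The standard conjecture of Hodge type passes from a singular fibre to the generic fibre

`X` is a smooth projective variety over a curve (the factor `b`) whose general fibres are products
of hypersurfaces, totally ramified covers of projective spaces and pointed curves.  The trace
`x ↦ tr (η x)`, with `η` the class of a hyperplane section of the curve, is a positive multiple of
the degree on the generic fibre.  If the conjecture holds on the components of one fibre (they are
smooth, have any multiplicities and meet in any way), it holds on the generic fibre.  No hypothesis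
is left for fourfolds which degenerate to uniruled fourfolds.
-/

open Pool.Agent.Work.MP_ffcd14_ag Pool.Agent.Work.MP_ffcd14_ag.Dg

universe u v w

theorem Pool.Agent.Results.MP_ffcd14_ag.Degeneration.result
    {k : Type u} {K : Type v} [Field k] [IsAlgClosed k] [Field K] [CharZero K]
    (C : Weil.{u, v, w} k K) (hC : C.Chow) {P : Amb} (X : Var k P) (b : P.ι) {ι : Type}
    [Fintype ι] (F : ι → Fac k P) (g : MvPolynomial P.V k) (h : Fam X b F g) (d n : ℕ)
    (hd : d + 1 = X.dim) (hn : 2 * n ≤ d) (l : C.H X) (hl : l ∈ C.A X 1) (t : ι → ℚ)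
    (ht : Num0 (fun x => C.tr X (C.hyp X b * x)) (C.A X)
      (l - ∑ j, (t j : K) • lin (C.hyp X) (F j).a))
    (s : MvPolynomial P.V k) (hs : IsForm s (Finsupp.single b 1)) (hs' : ∃ x ∈ X.pts, ev x s ≠ 0)
    (hc : ∀ T, Maximal (fun T => IsIrreducible T ∧ T ⊆ {x ∈ X.pts | ev x s = 0}) T →
      ∃ (Y : Var k P) (i : Hom Y X), Y.pts = T ∧ (∀ y, (i.toFun y).1 = y.1) ∧
        (Hdg (C.tr Y) d (C.A Y) (C.pull i l) n ∨
          d = 4 ∧ Uniruled Y ∧ C.Ample Y (C.pull i l))) :
    Hdg (fun x => C.tr X (C.hyp X b * x)) d (C.A X) l n :=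
  main C hC X b F g h d n hd hn l hl t ht s hs hs' hc
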