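import Pool.Agent.Work.MP_ffcd14_ag.Ry.F1

/-!
# The standard conjecture of Hodge type for abelian varieties with bad reduction

`X = E / M` is an abelian variety over a complete algebraically closed non-archimedean field `K` of
characteristic `p`, where `E` is an extension of an abelian variety with good reduction `B₀` by a
torus; `k` is a field of representatives of the residue field.  The conjecture holds for `X`, in
all codimensions and for all polarisations, in the Chow ring modulo numerical equivalence, if
`dim B₀ ≤ 3`, or if it holds for `B₀`.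
-/

open Pool.Agent.Work.MP_ffcd14_ag Pool.Agent.Work.MP_10f4af_ag

universe u

theorem Pool.Agent.Results.MP_ffcd14_ag.RaynaudAbelian.result
    {k K : Type u} [Field k] [IsAlgClosed k] [Countable k] [NontriviallyNormedField K]
    [IsUltrametricDist K] [CompleteSpace K] [IsAlgClosed K] [Algebra k K] (p : ℕ) [Fact p.Prime]
    [CharP K p] (hΓ : (Set.range fun c : K => ‖c‖).Countable)
    (h1 : ∀ c : k, c ≠ 0 → ‖algebraMap k K c‖ = 1)
    (h2 : ∀ a : K, ‖a‖ ≤ 1 → ∃ c : k, ‖a - algebraMap k K c‖ < 1) {P : Amb} (X : SV K P)
    (R : Ry.Ray k X) (hB : 3 < R.B₀.dim → Ry.HodgeAll R.B₀) : Ry.HodgeAll X :=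
  @Ry.main_all k K _ _ _ { one := h1, res := h2 } _ _ _ P X p _ _ _ hΓ R hB
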