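import Pool.Agent.Work.MP_ffcd14_ag.Gm.Fin

/-!
# The standard conjecture of Hodge type localises at the fixed points of a torus action

`X` is a smooth projective variety which is stable under a linear action of the multiplicative
group with weights `ω`.  The conjecture holds on `X` up to codimension `n` if and only if it holds
on the components `F` of the fixed locus in the range of codimensions given by the dimensions of
the two Białynicki-Birula cells of `F`.
-/

open Pool.Agent.Work.MP_ffcd14_ag Pool.Agent.Work.MP_ffcd14_ag.Gm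

universe u v w

theorem Pool.Agent.Results.MP_ffcd14_ag.TorusFixedPoints.result
    {k : Type u} {K : Type v} [Field k] [IsAlgClosed k] [Field K] [CharZero K]
    (C : WeilL.{u, v, w} k K) (hC : C.Chow) {σ : Type} [Finite σ] (ω : σ → ℤ)
    (X : Var k (Amb.one σ)) (hX : IsIrreducible X.pts) (hs : Stable ω X.pts)
    (l : C.H X) (hl : C.Ample X l) (L : ∀ F : Var k (Amb.one σ), C.H F)
    (hL : ∀ F, Comp (Fix ω X.pts) F.pts → C.Ample F (L F))
    (hA : LefA X.dim (C.A X) l ∨ ∀ F, Comp (Fix ω X.pts) F.pts → LefA F.dim (C.A F) (L F))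
    (n : ℕ) (hn : 2 * n ≤ X.dim) :
    (∀ i ≤ n, Hdg (C.tr X) X.dim (C.A X) l i) ↔
      ∀ F, Comp (Fix ω X.pts) F.pts → ∀ j : ℕ, 2 ≤ j → 2 * j ≤ F.dim →
        (j + n : WithBot ℕ∞) ≤ topologicalKrullDim (Cell ω X.pts F.pts) →
        (j + X.dim : WithBot ℕ∞) ≤ topologicalKrullDim (Cell (-ω) X.pts F.pts) + n →
        Hdg (C.tr F) F.dim (C.A F) (L F) j :=
  torus_main C hC ω X hX hs l hl L hL hA n hn
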