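import Pool.Agent.Work.MP_ffcd14_ag.Uni.Z6
import Pool.Agent.Work.MP_ffcd14_ag.Chw.Fin

/-!
# The standard conjecture of Hodge type for uniruled fourfolds

`X` is a smooth projective fourfold over an algebraically closed field of any characteristic which
is dominated by `Y × ℙ¹` for a threefold `Y` (the map may be inseparable).  The Chow groups, the
intersection product and numerical equivalence are constructed, not assumed.
-/

open Pool.Agent.Work.MP_ffcd14_ag
open Pool.Agent.Work.MP_10f4af_ag (SV)

universe u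

theorem Pool.Agent.Results.MP_ffcd14_ag.UniruledChow.result {k : Type u} [Field k] [IsAlgClosed k]
    {P : Amb} (X : SV k P) (hd : X.dim = 4) (hU : Uniruled X.toVar)
    (f : MvPolynomial P.V k) (a : P.ι →₀ ℕ) (hf : IsForm f a) (ha : ∀ i, 0 < a i)
    (hX : ∃ x ∈ X.pts, ev x f ≠ 0) (n : ℕ) (hn : 2 * n ≤ 4) : Chw.Hodge X (Chw.sec X f) n :=
  Pool.Agent.Work.MP_10f4af_ag.Nu.hodge_of X hf (fun h => hX.elim fun x hx => hx.2 (h x hx.1)) n
    fun _ hC => Uni.uni_N hC hU hd ha hn
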